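import Mathlib

/-!
# Packings of unit discs in a square (MP_77b5a8_co): definitions and the slip line construction
-/

set_option autoImplicit false

open Metric Set

namespace Run7.h215.SQ

/-- The Euclidean plane. -/
abbrev E2 : Type := EuclideanSpace ℝ (Fin 2)

/-- The square `[0, s] × [0, s]`. -/
def square (s : ℝ) : Set E2 := {p | ∀ k, 0 ≤ p k ∧ p k ≤ s}

/-- Some square of side `s` in the plane (the image of `[0, s] × [0, s]` under an isometry) contains
`n` nonoverlapping unit discs. -/
def Packs (n : ℕ) (s : ℝ) : Prop :=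
  ∃ (φ : E2 ≃ᵢ E2) (c : Fin n → E2), (∀ i, closedBall (c i) 1 ⊆ φ '' square s) ∧
    ∀ i j, i ≠ j → Disjoint (interior (closedBall (c i) 1)) (interior (closedBall (c j) 1))

/-- `s` is the minimal side length of a square that contains `n` nonoverlapping unit discs. -/
def IsMinSide (n : ℕ) (s : ℝ) : Prop := IsLeast {t : ℝ | Packs n t} s

/-- The packing condition in coordinates of the centres. -/
def PC (n : ℕ) (s : ℝ) (c : Fin n → E2) : Prop :=
  (∀ i k, 1 ≤ c i k ∧ c i k ≤ s - 1) ∧ ∀ i j, i ≠ j → 2 ≤ dist (c i) (c j)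

theorem sub_square {s : ℝ} {c : E2} : closedBall c 1 ⊆ square s ↔ ∀ k, 1 ≤ c k ∧ c k ≤ s - 1 := by
  constructor
  · intro h k
    have h1 : c - EuclideanSpace.single k (1 : ℝ) ∈ closedBall c 1 := by
      rw [mem_closedBall, dist_eq_norm]
      simp
    have h2 : c + EuclideanSpace.single k (1 : ℝ) ∈ closedBall c 1 := by
      rw [mem_closedBall, dist_eq_norm]
      simp
    have h3 := (h h1 k).1
    have h4 := (h h2 k).2
    simp at h3 h4
    constructor <;> linarith
  · intro h p hp k
    rw [mem_closedBall, dist_eq_norm] at hp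
    have h1 : ‖(p - c) k‖ ≤ ‖p - c‖ := PiLp.norm_apply_le (p - c) k
    have h2 : |p k - c k| ≤ 1 := by
      rw [← Real.norm_eq_abs]
      exact h1.trans hp
    obtain ⟨h3, h4⟩ := abs_le.1 h2
    obtain ⟨h5, h6⟩ := h k
    constructor <;> linarith

theorem disj_iff {x y : E2} : Disjoint (interior (closedBall x 1)) (interior (closedBall y 1)) ↔
    2 ≤ dist x y := by
  rw [interior_closedBall _ one_ne_zero, interior_closedBall _ one_ne_zero,
    disjoint_ball_ball_iff one_pos one_pos]
  norm_num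

theorem packs_iff {n : ℕ} {s : ℝ} : Packs n s ↔ ∃ c : Fin n → E2, PC n s c := by
  constructor
  · rintro ⟨φ, c, h1, h2⟩
    refine ⟨fun i => φ.symm (c i), fun i => ?_, fun i j hij => ?_⟩
    · rw [← sub_square]
      intro p hp
      have h3 : φ p ∈ closedBall (c i) 1 := by
        rw [mem_closedBall] at hp ⊢
        have := φ.symm.isometry.dist_eq (φ p) (c i)
        rw [φ.symm_apply_apply] at this
        rw [← this]
        exact hp
      obtain ⟨p', hp', he⟩ := h1 i h3
      rwa [← φ.injective he]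
    · rw [φ.symm.isometry.dist_eq]
      exact disj_iff.1 (h2 i j hij)
  · rintro ⟨c, h1, h2⟩
    refine ⟨IsometryEquiv.refl E2, c, fun i => ?_, fun i j hij => disj_iff.2 (h2 i j hij)⟩
    have : (IsometryEquiv.refl E2) '' square s = square s := by
      ext p
      exact ⟨fun ⟨x, hx, he⟩ => by rwa [← (show x = p from he)], fun h => ⟨p, h, rfl⟩⟩
    rw [this]
    exact sub_square.2 (h1 i)

theorem Packs.mono {n N : ℕ} {s : ℝ} (h : Packs N s) (hn : n ≤ N) : Packs n s := by
  obtain ⟨φ, c, h1, h2⟩ := h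
  exact ⟨φ, fun i => c (Fin.castLE hn i), fun i => h1 _, fun i j hij => h2 _ _ fun he =>
    hij (Fin.castLE_injective hn he)⟩

/-- Packings from points at mutual distance at least one in a smaller square. -/
theorem packs_of {ι : Type*} (P : Finset ι) (g : ι → ℝ × ℝ) (σ : ℝ)
    (hb : ∀ p ∈ P, 0 ≤ (g p).1 ∧ (g p).1 ≤ σ ∧ 0 ≤ (g p).2 ∧ (g p).2 ≤ σ)
    (hd : ∀ p ∈ P, ∀ p' ∈ P, p ≠ p' →
      1 ≤ ((g p).1 - (g p').1) ^ 2 + ((g p).2 - (g p').2) ^ 2) :
    Packs P.card (2 * σ + 2) := by
  rw [packs_iff]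
  refine ⟨fun i => !₂[1 + 2 * (g (P.equivFin.symm i)).1, 1 + 2 * (g (P.equivFin.symm i)).2],
    fun i k => ?_, fun i j hij => ?_⟩
  · have h := hb _ (P.equivFin.symm i).2
    fin_cases k
    · simp only [Fin.zero_eta, Matrix.cons_val_zero]
      constructor <;> linarith [h.1, h.2.1]
    · simp only [Fin.mk_one, Matrix.cons_val_one, Matrix.cons_val_fin_one]
      constructor <;> linarith [h.2.2.1, h.2.2.2]
  · have hne : ((P.equivFin.symm i : P) : ι) ≠ ((P.equivFin.symm j : P) : ι) := by
      intro h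
      exact hij (P.equivFin.symm.injective (Subtype.ext h))
    have h := hd _ (P.equivFin.symm i).2 _ (P.equivFin.symm j).2 hne
    rw [EuclideanSpace.dist_eq, Fin.sum_univ_two]
    simp only [Matrix.cons_val_zero, Matrix.cons_val_one, Matrix.cons_val_fin_one]
    apply Real.le_sqrt_of_sq_le
    rw [Real.dist_eq, Real.dist_eq, sq_abs, sq_abs]
    nlinarith [h]

end Run7.h215.SQ
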