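import Pool.Agent.Run7.h215.SQ.Slip

/-!
# Packings of unit discs in a square: the minimal side length
-/

set_option autoImplicit false

open Metric Set

namespace Run7.h215.SQ

theorem c0_nonneg : 0 ≤ 1 - √2 + √3 / 2 := by
  have h1 : √2 ≤ 1.42 := Real.sqrt_le_iff.2 ⟨by norm_num, by norm_num⟩
  have h2 : 1.7 ≤ √3 := Real.le_sqrt_of_sq_le (by norm_num)
  linarith

theorem packs_nonempty (n : ℕ) : Packs n (2 * (n : ℝ) + 2) := by
  obtain ⟨N, h1, h2⟩ := lower (Nat.cast_nonneg n)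
  refine h1.mono ?_
  have s3 : √3 ≤ 2 := Real.sqrt_le_iff.2 ⟨by norm_num, by norm_num⟩
  have h3 : √3 * N ≤ 2 * N := mul_le_mul_of_nonneg_right s3 (Nat.cast_nonneg _)
  have h4 : 0 ≤ (1 - √2 + √3 / 2) * (n : ℝ) := mul_nonneg c0_nonneg (Nat.cast_nonneg _)
  have h5 : (n : ℝ) ^ 2 ≤ N := by linarith
  have h6 : n ^ 2 ≤ N := by exact_mod_cast h5
  nlinarith

theorem two_le {n : ℕ} (hn : 1 ≤ n) {s : ℝ} (h : Packs n s) : 2 ≤ s := by
  obtain ⟨c, h1, -⟩ := packs_iff.1 h
  have := h1 ⟨0, hn⟩ 0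
  linarith [this.1, this.2]

/-- The minimal side length exists. -/
theorem exists_minSide (n : ℕ) (hn : 1 ≤ n) : ∃ s, IsMinSide n s := by
  set S : ℝ := 2 * (n : ℝ) + 2 with hS
  have hS0 : 0 ≤ S := by positivity
  set K : Set (ℝ × (Fin n → E2)) := {x | x.1 ∈ Icc 0 S ∧ PC n x.1 x.2} with hK
  have hcl : IsClosed K := by
    have h1 : IsClosed {x : ℝ × (Fin n → E2) | ∀ i k, 1 ≤ x.2 i k ∧ x.2 i k ≤ x.1 - 1} := by
      simp only [ofPred_forall]
      refine isClosed_iInter fun i => isClosed_iInter fun k => ?_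
      have hk : Continuous fun x : ℝ × (Fin n → E2) => x.2 i k := by fun_prop
      exact (isClosed_le continuous_const hk).inter
        (isClosed_le hk (continuous_fst.sub continuous_const))
    have h2 : IsClosed {x : ℝ × (Fin n → E2) | ∀ i j, i ≠ j → 2 ≤ dist (x.2 i) (x.2 j)} := by
      simp only [ofPred_forall]
      refine isClosed_iInter fun i => isClosed_iInter fun j => isClosed_iInter fun _ => ?_
      have hk : Continuous fun x : ℝ × (Fin n → E2) => dist (x.2 i) (x.2 j) := by fun_prop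
      exact isClosed_le continuous_const hk
    exact (isClosed_Icc.preimage continuous_fst).inter (h1.inter h2)
  have hsub : K ⊆ (Icc 0 S) ×ˢ (Set.pi univ fun _ : Fin n => closedBall (0 : E2) (2 * S)) := by
    rintro ⟨s, c⟩ ⟨hs, h1, -⟩
    refine ⟨hs, fun i _ => ?_⟩
    rw [mem_closedBall, dist_zero_right, EuclideanSpace.norm_eq, Fin.sum_univ_two]
    have h2 := h1 i 0
    have h3 := h1 i 1
    have h4 : s ≤ S := hs.2
    apply Real.sqrt_le_iff.2
    refine ⟨by positivity, ?_⟩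
    rw [Real.norm_eq_abs, Real.norm_eq_abs, sq_abs, sq_abs]
    nlinarith [h2.1, h2.2, h3.1, h3.2]
  have hcomp : IsCompact K :=
    (isCompact_Icc.prod (isCompact_univ_pi fun _ => isCompact_closedBall _ _)).of_isClosed_subset
      hcl hsub
  have hne : K.Nonempty := by
    obtain ⟨c, hc⟩ := packs_iff.1 (packs_nonempty n)
    exact ⟨(S, c), ⟨hS0, le_rfl⟩, hc⟩
  obtain ⟨s, ⟨⟨s', c⟩, hx, rfl⟩, hs⟩ := (hcomp.image continuous_fst).exists_isLeast (hne.image _)
  refine ⟨s', packs_iff.2 ⟨c, hx.2⟩, fun t ht => ?_⟩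
  obtain ⟨c', hc'⟩ := packs_iff.1 ht
  rcases le_or_gt t S with h | h
  · exact hs ⟨(t, c'), ⟨⟨by linarith [two_le hn ht], h⟩, hc'⟩, rfl⟩
  · exact hx.1.2.trans h.le

/-- The bound for the minimal side length. -/
theorem bound {n : ℕ} (hn : 1 ≤ n) {s : ℝ} (hs : IsMinSide n s) :
    (s - 2) * (s - (2 * √2 - √3)) ≤ √12 * (n - 1) := by
  have s12 : √12 = 2 * √3 := by
    rw [show (12 : ℝ) = 2 ^ 2 * 3 by norm_num, Real.sqrt_mul (by norm_num), Real.sqrt_sq (by norm_num)]
  have hn1 : (1 : ℝ) ≤ n := by exact_mod_cast hn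
  have s30 : 0 ≤ √3 := Real.sqrt_nonneg 3
  have h2 := two_le hn hs.1
  have key : ∀ t : ℝ, 2 ≤ t → t < s → (t - 2) * (t - (2 * √2 - √3)) ≤ √12 * (n - 1) := by
    intro t ht hts
    obtain ⟨N, h3, h4⟩ := lower (σ := (t - 2) / 2) (by linarith)
    rw [show 2 * ((t - 2) / 2) + 2 = t by ring] at h3
    have h5 : N < n := by
      by_contra hc
      push Not at hc
      have := hs.2 (h3.mono hc)
      linarith
    have h6 : (N : ℝ) ≤ n - 1 := by
      have : (N : ℝ) + 1 ≤ n := by exact_mod_cast h5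
      linarith
    have h7 : √3 * N ≤ √3 * (n - 1) := mul_le_mul_of_nonneg_left h6 s30
    rw [s12]
    nlinarith
  rcases eq_or_lt_of_le h2 with h | h
  · rw [← h]
    have : 0 ≤ √12 * ((n : ℝ) - 1) := mul_nonneg (Real.sqrt_nonneg _) (by linarith)
    linarith
  · have hc : Continuous fun t : ℝ => (t - 2) * (t - (2 * √2 - √3)) := by fun_prop
    have h8 : Filter.Tendsto (fun t : ℝ => (t - 2) * (t - (2 * √2 - √3))) (nhdsWithin s (Iio s))
        (nhds ((s - 2) * (s - (2 * √2 - √3)))) := (hc.tendsto s).mono_left nhdsWithin_le_nhds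
    refine le_of_tendsto h8 ?_
    have h9 : Ioo 2 s ∈ nhdsWithin s (Iio s) := Ioo_mem_nhdsLT h
    filter_upwards [h9] with t ht
    exact key t ht.1.le ht.2

end Run7.h215.SQ
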