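import Pool.Agent.Run7.h215.SQ.Basic

/-!
# The hexagonal packing with a slip line

The points of the hexagonal lattice `x = X / 2`, `y = i √3 / 2`, `X ≡ i` modulo 2. The line
`X = i + 1` of direction 60 degrees cuts the rows into a left part (`X ≤ i`), which is shifted upwards
by `h`, and a right part, which is shifted to the left by `w`; `(1 - w) ^ 2 + h ^ 2 = 1`.
-/

set_option autoImplicit false

open Metric Set

namespace Run7.h215.SQ

/-- The slipped point. -/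
noncomputable def gp (w h : ℝ) (p : ℕ × ℕ) : ℝ × ℝ :=
  if p.1 ≤ p.2 then ((p.1 : ℝ) / 2, (p.2 : ℝ) * (√3 / 2) + h)
  else ((p.1 : ℝ) / 2 - w, (p.2 : ℝ) * (√3 / 2))

/-- The index set: `X ≤ M`, `i < q`, `X ≡ i` modulo 2. -/
def idx (M q : ℕ) : Finset (ℕ × ℕ) :=
  (Finset.range (M + 1) ×ˢ Finset.range q).filter fun p => p.1 % 2 = p.2 % 2

theorem alt_nonneg (n : ℕ) : 0 ≤ ∑ i ∈ Finset.range n, (-1 : ℤ) ^ i := by
  have h : ∀ k : ℕ, ∑ i ∈ Finset.range (2 * k), (-1 : ℤ) ^ i = 0 := by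
    intro k
    induction k with
    | zero => simp
    | succ k ih =>
      rw [show 2 * (k + 1) = 2 * k + 1 + 1 by ring, Finset.sum_range_succ, Finset.sum_range_succ, ih,
        pow_succ, pow_mul]
      norm_num
  rcases Nat.even_or_odd' n with ⟨k, rfl | rfl⟩
  · rw [h]
  · rw [Finset.sum_range_succ, h, pow_mul]
    norm_num

theorem card_idx (M q : ℕ) : (M + 1) * q ≤ 2 * (idx M q).card := by
  have h1 : ∀ p : ℕ × ℕ, (1 : ℤ) + (-1) ^ p.1 * (-1) ^ p.2 =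
      2 * (if p.1 % 2 = p.2 % 2 then 1 else 0) := by
    rintro ⟨a, b⟩
    simp only
    rw [← pow_add]
    rcases Nat.even_or_odd' a with ⟨k, rfl | rfl⟩ <;> rcases Nat.even_or_odd' b with ⟨l, rfl | rfl⟩
    · rw [if_pos (by omega), show 2 * k + 2 * l = 2 * (k + l) by ring, pow_mul]
      norm_num
    · rw [if_neg (by omega), show 2 * k + (2 * l + 1) = 2 * (k + l) + 1 by ring, pow_succ, pow_mul]
      norm_num
    · rw [if_neg (by omega), show 2 * k + 1 + 2 * l = 2 * (k + l) + 1 by ring, pow_succ, pow_mul]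
      norm_num
    · rw [if_pos (by omega), show 2 * k + 1 + (2 * l + 1) = 2 * (k + l + 1) by ring, pow_mul]
      norm_num
  have h2 : ∑ p ∈ Finset.range (M + 1) ×ˢ Finset.range q, ((1 : ℤ) + (-1) ^ p.1 * (-1) ^ p.2) =
      2 * ((idx M q).card : ℤ) := by
    rw [idx, Finset.card_filter]
    push_cast
    rw [Finset.mul_sum]
    exact Finset.sum_congr rfl fun p _ => h1 p
  have h3 : ∑ p ∈ Finset.range (M + 1) ×ˢ Finset.range q, ((1 : ℤ) + (-1) ^ p.1 * (-1) ^ p.2) =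
      (M + 1) * q + (∑ i ∈ Finset.range (M + 1), (-1 : ℤ) ^ i) *
        ∑ i ∈ Finset.range q, (-1 : ℤ) ^ i := by
    rw [Finset.sum_add_distrib, Finset.sum_const, Finset.card_product, Finset.card_range,
      Finset.card_range, Finset.sum_product, Finset.sum_mul_sum]
    simp
  have h4 := mul_nonneg (alt_nonneg (M + 1)) (alt_nonneg q)
  have h5 : ((M + 1) * q : ℤ) ≤ 2 * ((idx M q).card : ℤ) := by
    rw [← h2, h3]
    linarith
  exact_mod_cast h5

/-- Lattice distances. -/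
theorem lat {u v : ℤ} (hp : u % 2 = v % 2) (h0 : ¬ (u = 0 ∧ v = 0)) :
    4 ≤ u ^ 2 + 3 * v ^ 2 := by
  rcases lt_trichotomy v 0 with hv | hv | hv
  · rcases eq_or_lt_of_le (show v ≤ -1 by omega) with h | h
    · subst h
      have : u ≠ 0 := by rintro rfl; omega
      have : 1 ≤ u ^ 2 := by
        rcases lt_or_gt_of_ne this with h | h <;> nlinarith
      nlinarith
    · nlinarith
  · subst hv
    have : u ≠ 0 := fun h => h0 ⟨h, rfl⟩
    have h2 : u ≤ -2 ∨ 2 ≤ u := by omega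
    rcases h2 with h | h <;> nlinarith
  · rcases eq_or_lt_of_le (show 1 ≤ v by omega) with h | h
    · subst h
      have : u ≠ 0 := by rintro rfl; omega
      have : 1 ≤ u ^ 2 := by
        rcases lt_or_gt_of_ne this with h | h <;> nlinarith
      nlinarith
    · nlinarith

/-- Distances across the slip line. -/
theorem cross {w h : ℝ} (hw0 : 0 ≤ w) (hw : w ≤ 1 / 2) (h0 : 0 ≤ h) (hh : w ^ 2 + h ^ 2 = 2 * w)
    {a b : ℤ} (ha : 1 ≤ a) :
    1 ≤ ((a : ℝ) + b / 2 - w) ^ 2 + ((b : ℝ) * (√3 / 2) - h) ^ 2 := by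
  have s3 : √3 ^ 2 = 3 := Real.sq_sqrt (by norm_num)
  have s30 : 0 ≤ √3 := Real.sqrt_nonneg 3
  have e : ((a : ℝ) + b / 2 - w) ^ 2 + ((b : ℝ) * (√3 / 2) - h) ^ 2 =
      (a : ℝ) ^ 2 + a * b + b ^ 2 - 2 * w * (a - 1) - b * (w + √3 * h) := by
    linear_combination hh + (b : ℝ) ^ 2 / 4 * s3
  rw [e]
  have haR : (1 : ℝ) ≤ a := by exact_mod_cast ha
  have hsq : h ^ 2 ≤ 3 / 4 := by nlinarith
  have hh1 : h ≤ √3 / 2 := by
    by_contra hc
    push Not at hc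
    nlinarith
  have h1 : 2 * w * (a - 1) ≤ (a : ℝ) - 1 := by nlinarith
  have hwh : w + √3 * h ≤ 2 := by nlinarith
  have hwh0 : 0 ≤ w + √3 * h := by positivity
  rcases le_or_gt b 0 with hb | hb
  · have hbR : (b : ℝ) ≤ 0 := by exact_mod_cast hb
    have h2 : (0 : ℝ) ≤ a ^ 2 + a * b + b ^ 2 - a := by
      have h3 : 0 ≤ a ^ 2 + a * b + b ^ 2 - a := by
        rcases eq_or_lt_of_le hb with h | h
        · subst h
          nlinarith
        · have h4 : 0 ≤ (2 * a + b - 1) ^ 2 + (-3 * b + 1) * (-b - 1) := by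
            have : 0 ≤ (-3 * b + 1) * (-b - 1) := mul_nonneg (by omega) (by omega)
            nlinarith [sq_nonneg (2 * a + b - 1)]
          nlinarith
      exact_mod_cast h3
    have h5 : b * (w + √3 * h) ≤ 0 := mul_nonpos_of_nonpos_of_nonneg hbR hwh0
    linarith
  · have hbR : (1 : ℝ) ≤ b := by exact_mod_cast hb
    have h5 : b * (w + √3 * h) ≤ b * 2 := by
      apply mul_le_mul_of_nonneg_left hwh (by linarith)
    nlinarith

theorem gp_dist {w h : ℝ} (hw0 : 0 ≤ w) (hw : w ≤ 1 / 2) (h0 : 0 ≤ h)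
    (hh : w ^ 2 + h ^ 2 = 2 * w) {p p' : ℕ × ℕ} (hp : p.1 % 2 = p.2 % 2)
    (hp' : p'.1 % 2 = p'.2 % 2) (hne : p ≠ p') :
    1 ≤ ((gp w h p).1 - (gp w h p').1) ^ 2 + ((gp w h p).2 - (gp w h p').2) ^ 2 := by
  have s3 : √3 ^ 2 = 3 := Real.sq_sqrt (by norm_num)
  have same : ∀ p p' : ℕ × ℕ, p.1 % 2 = p.2 % 2 → p'.1 % 2 = p'.2 % 2 → p ≠ p' →
      (1 : ℝ) ≤ ((p.1 : ℝ) / 2 - (p'.1 : ℝ) / 2) ^ 2 +
        ((p.2 : ℝ) * (√3 / 2) - (p'.2 : ℝ) * (√3 / 2)) ^ 2 := by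
    rintro ⟨a, b⟩ ⟨c, d⟩ h1 h2 h3
    simp only at h1 h2 ⊢
    have h4 : 4 ≤ ((a : ℤ) - c) ^ 2 + 3 * ((b : ℤ) - d) ^ 2 := by
      apply lat
      · omega
      · rintro ⟨h5, h6⟩
        apply h3
        have h7 : a = c := by omega
        have h8 : b = d := by omega
        rw [h7, h8]
    have h5 : (4 : ℝ) ≤ ((a : ℝ) - c) ^ 2 + 3 * ((b : ℝ) - d) ^ 2 := by exact_mod_cast h4
    have h6 : ((a : ℝ) / 2 - (c : ℝ) / 2) ^ 2 + ((b : ℝ) * (√3 / 2) - (d : ℝ) * (√3 / 2)) ^ 2 =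
        (((a : ℝ) - c) ^ 2 + 3 * ((b : ℝ) - d) ^ 2) / 4 := by
      linear_combination ((b : ℝ) - d) ^ 2 / 4 * s3
    rw [h6]
    linarith
  have diff : ∀ p p' : ℕ × ℕ, p.1 % 2 = p.2 % 2 → p'.1 % 2 = p'.2 % 2 → p.1 ≤ p.2 → ¬ p'.1 ≤ p'.2 →
      (1 : ℝ) ≤ ((p'.1 : ℝ) / 2 - w - (p.1 : ℝ) / 2) ^ 2 +
        ((p'.2 : ℝ) * (√3 / 2) - ((p.2 : ℝ) * (√3 / 2) + h)) ^ 2 := by
    rintro ⟨a, b⟩ ⟨c, d⟩ h1 h2 h3 h4
    simp only at h1 h2 h3 h4 ⊢
    obtain ⟨k, hk⟩ : ∃ k : ℤ, (c : ℤ) - d - (a - b) = 2 * k := ⟨((c : ℤ) - d - (a - b)) / 2, by omega⟩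
    have hk1 : 1 ≤ k := by omega
    have h5 := cross hw0 hw h0 hh hk1 (b := (d : ℤ) - b)
    have hkR : (c : ℝ) - d - (a - b) = 2 * k := by exact_mod_cast hk
    have e1 : (k : ℝ) + ((d : ℤ) - (b : ℤ) : ℤ) / 2 - w = (c : ℝ) / 2 - w - (a : ℝ) / 2 := by
      push_cast
      linarith
    have e2 : (((d : ℤ) - (b : ℤ) : ℤ) : ℝ) * (√3 / 2) - h =
        (d : ℝ) * (√3 / 2) - ((b : ℝ) * (√3 / 2) + h) := by
      push_cast
      ring
    rw [e1, e2] at h5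
    exact h5
  unfold gp
  by_cases h1 : p.1 ≤ p.2 <;> by_cases h2 : p'.1 ≤ p'.2
  · rw [if_pos h1, if_pos h2]
    have := same p p' hp hp' hne
    simpa using this
  · rw [if_pos h1, if_neg h2]
    have := diff p p' hp hp' h1 h2
    simp only
    nlinarith [this]
  · rw [if_neg h1, if_pos h2]
    have := diff p' p hp' hp h2 h1
    simp only
    nlinarith [this]
  · rw [if_neg h1, if_neg h2]
    have := same p p' hp hp' hne
    simpa using this

/-- The construction. -/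
theorem packs_slip {σ w h : ℝ} (hw0 : 0 ≤ w) (hw : w ≤ 1 / 2) (h0 : 0 ≤ h)
    (hh : w ^ 2 + h ^ 2 = 2 * w) {M q : ℕ} (hM : (M : ℝ) / 2 ≤ σ + w)
    (hq : ((q : ℝ) - 1) * (√3 / 2) + h ≤ σ) : Packs (idx M q).card (2 * σ + 2) := by
  have s3 : √3 ^ 2 = 3 := Real.sq_sqrt (by norm_num)
  have s31 : 1 ≤ √3 := by
    rw [Real.one_le_sqrt]
    norm_num
  refine packs_of (idx M q) (gp w h) σ ?_ ?_
  · intro p hp
    rw [idx, Finset.mem_filter, Finset.mem_product, Finset.mem_range, Finset.mem_range] at hp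
    obtain ⟨⟨h1, h2⟩, h3⟩ := hp
    have h1' : (p.1 : ℝ) ≤ M := by exact_mod_cast Nat.lt_succ_iff.1 h1
    have h2' : (p.2 : ℝ) ≤ q - 1 := by
      have : (p.2 : ℝ) + 1 ≤ q := by exact_mod_cast h2
      linarith
    have h20 : (0 : ℝ) ≤ p.2 := Nat.cast_nonneg _
    have h10 : (0 : ℝ) ≤ p.1 := Nat.cast_nonneg _
    have h4 : (p.2 : ℝ) * (√3 / 2) ≤ (q - 1) * (√3 / 2) := by
      apply mul_le_mul_of_nonneg_right h2' (by positivity)
    unfold gp
    by_cases hc : p.1 ≤ p.2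
    · rw [if_pos hc]
      have hc' : (p.1 : ℝ) ≤ p.2 := by exact_mod_cast hc
      refine ⟨by positivity, ?_, by positivity, ?_⟩
      · simp only
        nlinarith
      · simp only
        linarith
    · rw [if_neg hc]
      have hc' : (p.2 : ℝ) + 2 ≤ p.1 := by
        have : p.2 + 2 ≤ p.1 := by omega
        exact_mod_cast this
      refine ⟨?_, ?_, by positivity, ?_⟩
      · simp only
        linarith
      · simp only
        linarith
      · simp only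
        linarith
  · intro p hp p' hp' hne
    rw [idx, Finset.mem_filter] at hp hp'
    exact gp_dist hw0 hw h0 hh hp.2 hp'.2 hne

/-- The lower bound for the number of the discs. -/
theorem lower {σ : ℝ} (hσ : 0 ≤ σ) : ∃ N : ℕ, Packs N (2 * σ + 2) ∧
    2 * (σ ^ 2 + (1 - √2 + √3 / 2) * σ) ≤ √3 * N := by
  have s3 : √3 ^ 2 = 3 := Real.sq_sqrt (by norm_num)
  have s2 : √2 ^ 2 = 2 := Real.sq_sqrt (by norm_num)
  have s30 : 0 < √3 := Real.sqrt_pos.2 (by norm_num)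
  have s20 : 0 < √2 := Real.sqrt_pos.2 (by norm_num)
  have c0 : 1 - √2 + √3 / 2 ≤ 1 / 2 := by
    have h1 : √3 ≤ 2 * √2 - 1 := by
      have : 1.4 ≤ √2 := Real.le_sqrt_of_sq_le (by norm_num)
      nlinarith
    linarith
  obtain ⟨m, hm⟩ : ∃ m : ℕ, m = ⌊2 * σ⌋₊ := ⟨_, rfl⟩
  obtain ⟨q, hq⟩ : ∃ q : ℕ, q = ⌊2 * σ / √3⌋₊ := ⟨_, rfl⟩
  have hm1 : (m : ℝ) ≤ 2 * σ := hm ▸ Nat.floor_le (by positivity)
  have hm2 : 2 * σ < m + 1 := hm ▸ Nat.lt_floor_add_one _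
  have hq1 : (q : ℝ) * √3 ≤ 2 * σ := by
    rw [← le_div_iff₀ s30]
    exact hq ▸ Nat.floor_le (by positivity)
  have hq2 : 2 * σ < (q + 1) * √3 := by
    rw [← div_lt_iff₀ s30]
    exact hq ▸ Nat.lt_floor_add_one _
  obtain ⟨w, hw⟩ : ∃ w : ℝ, w = ((m : ℝ) + 1) / 2 - σ := ⟨_, rfl⟩
  have hw0 : 0 ≤ w := by linarith
  have hw2 : w ≤ 1 / 2 := by linarith
  obtain ⟨h, hh⟩ : ∃ h : ℝ, h = √(2 * w - w ^ 2) := ⟨_, rfl⟩
  have h0 : 0 ≤ h := hh ▸ Real.sqrt_nonneg _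
  have hhs : w ^ 2 + h ^ 2 = 2 * w := by
    rw [hh, Real.sq_sqrt (by nlinarith)]
    ring
  by_cases hc : ((q + 1 : ℕ) - 1 : ℝ) * (√3 / 2) + h ≤ σ
  · refine ⟨(idx (m + 1) (q + 1)).card, packs_slip hw0 hw2 h0 hhs ?_ hc, ?_⟩
    · push_cast
      linarith
    · have h1 : ((m : ℝ) + 1 + 1) * (q + 1) ≤ 2 * ((idx (m + 1) (q + 1)).card : ℝ) := by
        exact_mod_cast card_idx (m + 1) (q + 1)
      have h2 : (2 * σ + 1) * (2 * σ) ≤ ((m : ℝ) + 1 + 1) * ((q + 1) * √3) :=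
        mul_le_mul (by linarith) hq2.le (by positivity) (by positivity)
      nlinarith
  · refine ⟨(idx m (q + 1)).card, packs_slip (w := 0) (h := 0) le_rfl (by norm_num) le_rfl
      (by norm_num) ?_ ?_, ?_⟩
    · linarith
    · push_cast
      linarith
    · have h1 : ((m : ℝ) + 1) * (q + 1) ≤ 2 * ((idx m (q + 1)).card : ℝ) := by
        exact_mod_cast card_idx m (q + 1)
      push_cast at hc
      push Not at hc
      have h3 : 2 * σ + √3 - 2 * h ≤ (q + 1) * √3 := by linarith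
      have h4 : h + (1 - w) ≤ √2 := by
        apply Real.le_sqrt_of_sq_le
        nlinarith [sq_nonneg (h - (1 - w))]
      have h5 : 2 * h ≤ √3 := by
        have : h ^ 2 ≤ 3 / 4 := by nlinarith
        by_contra hcc
        push Not at hcc
        nlinarith
      have h2 : (2 * σ + 2 * w) * (2 * σ + √3 - 2 * h) ≤ ((m : ℝ) + 1) * ((q + 1) * √3) :=
        mul_le_mul (by linarith) h3 (by linarith) (by positivity)
      have h6 : 0 ≤ w * (√3 - 2 * h) := mul_nonneg hw0 (by linarith)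
      have h7 : (1 - √2 + √3 / 2) * σ ≤ (w + √3 / 2 - h) * σ :=
        mul_le_mul_of_nonneg_right (by linarith) hσ
      nlinarith

end Run7.h215.SQ
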